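import Pool.Agent.R634.SH.Main

/-!
# Reduction to the main theorem: `ℓ_∞(Γ)` has the SHAI property
-/

set_option autoImplicit false

open Set
open scoped Cardinal BoundedContinuousFunction

namespace Pool.Agent.R634.SH

universe u w

section corner

variable {𝕜 : Type w} [RCLike 𝕜] {X X0 : Type*} [NormedAddCommGroup X] [NormedSpace 𝕜 X]
  [NormedAddCommGroup X0] [NormedSpace 𝕜 X0]
  {Y : Type*} [NormedAddCommGroup Y] [NormedSpace 𝕜 Y]

/-- the range of an idempotent -/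
def fixSub (e : Y →L[𝕜] Y) : Submodule 𝕜 Y where
  carrier := {y | e y = y}
  add_mem' := by
    intro a b ha hb
    change e (a + b) = a + b
    rw [map_add, show e a = a from ha, show e b = b from hb]
  zero_mem' := map_zero e
  smul_mem' := by
    intro c a ha
    change e (c • a) = c • a
    rw [map_smul, show e a = a from ha]

theorem mem_fixSub {e : Y →L[𝕜] Y} {y : Y} : y ∈ fixSub e ↔ e y = y := Iff.rfl

theorem isClosed_fixSub (e : Y →L[𝕜] Y) : IsClosed (fixSub e : Set Y) :=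
  isClosed_eq e.continuous continuous_id

theorem corner [CompleteSpace Y] (ψ : (X →L[𝕜] X) →ₐ[𝕜] (Y →L[𝕜] Y))
    (hψ : Function.Surjective ψ) (ρ : X →L[𝕜] X0) (ι : X0 →L[𝕜] X) (hρι : ∀ x, ρ (ι x) = x) :
    ∃ ψ0 : (X0 →L[𝕜] X0) →ₐ[𝕜] (fixSub (ψ (ι.comp ρ)) →L[𝕜] fixSub (ψ (ι.comp ρ))),
      Function.Surjective ψ0 ∧ ∀ S, ψ ((ι.comp S).comp ρ) = 0 → ψ0 S = 0 := by
  set e := ψ (ι.comp ρ) with he
  have hmul : ∀ S T : X0 →L[𝕜] X0, ((ι.comp (S * T)).comp ρ) =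
      ((ι.comp S).comp ρ) * ((ι.comp T).comp ρ) := by
    intro S T
    ext x
    change ι (S (T (ρ x))) = ι (S (ρ (ι (T (ρ x)))))
    rw [hρι]
  have hleft : ∀ S : X0 →L[𝕜] X0, (ι.comp ρ) * ((ι.comp S).comp ρ) = ((ι.comp S).comp ρ) := by
    intro S
    ext x
    change ι (ρ (ι (S (ρ x)))) = ι (S (ρ x))
    rw [hρι]
  have hmem : ∀ (S : X0 →L[𝕜] X0) (y : Y), ψ ((ι.comp S).comp ρ) y ∈ fixSub e := by
    intro S y
    rw [mem_fixSub, he]
    have h1 : ψ (ι.comp ρ) (ψ ((ι.comp S).comp ρ) y) =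
        (ψ (ι.comp ρ) * ψ ((ι.comp S).comp ρ)) y := rfl
    rw [h1, ← map_mul, hleft]
  let Ψ : (X0 →L[𝕜] X0) → (fixSub e →L[𝕜] fixSub e) := fun S =>
    ((ψ ((ι.comp S).comp ρ)).comp (fixSub e).subtypeL).codRestrict (fixSub e) fun y => hmem S y
  have hΨ : ∀ S y, ((Ψ S y : fixSub e) : Y) = ψ ((ι.comp S).comp ρ) y := fun S y => rfl
  have hee : ∀ y, e (e y) = e y := by
    intro y
    have h1 : e (e y) = (ψ (ι.comp ρ) * ψ (ι.comp ρ)) y := rfl
    have h2 : (ι.comp ρ) * (ι.comp ρ) = ι.comp ρ := by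
      ext x
      change ι (ρ (ι (ρ x))) = ι (ρ x)
      rw [hρι]
    rw [h1, ← map_mul, h2]
  let L : (X0 →L[𝕜] X0) →ₗ[𝕜] (fixSub e →L[𝕜] fixSub e) :=
    { toFun := Ψ
      map_add' := by
        intro S T
        ext y
        rw [hΨ]
        have h1 : (ι.comp (S + T)).comp ρ = (ι.comp S).comp ρ + (ι.comp T).comp ρ := by
          ext x
          exact map_add ι _ _
        rw [h1, map_add]
        rfl
      map_smul' := by
        intro c S
        ext y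
        rw [hΨ]
        have h1 : (ι.comp (c • S)).comp ρ = c • ((ι.comp S).comp ρ) := by
          ext x
          exact map_smul ι _ _
        rw [h1, map_smul]
        rfl }
  have hL : ∀ S y, ((L S y : fixSub e) : Y) = ψ ((ι.comp S).comp ρ) y := fun S y => rfl
  refine ⟨AlgHom.ofLinearMap L ?_ ?_, ?_, ?_⟩
  · ext y
    rw [hL]
    have h1 : ((ι.comp (1 : X0 →L[𝕜] X0)).comp ρ) = ι.comp ρ := rfl
    rw [h1]
    exact y.2
  · intro S T
    ext y
    rw [hL, hmul, map_mul]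
    rfl
  · intro S'
    let E1 : Y →L[𝕜] fixSub e := e.codRestrict (fixSub e) fun y => hee y
    obtain ⟨T, hT⟩ := hψ (((fixSub e).subtypeL.comp S').comp E1)
    refine ⟨(ρ.comp T).comp ι, ?_⟩
    ext y
    change ((L ((ρ.comp T).comp ι) y : fixSub e) : Y) = _
    rw [hL]
    have h1 : (ι.comp ((ρ.comp T).comp ι)).comp ρ = (ι.comp ρ) * T * (ι.comp ρ) := rfl
    rw [h1, map_mul, map_mul, hT]
    change e (((S' (E1 (e y)) : fixSub e) : Y)) = _
    have h2 : E1 (e y) = y := by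
      apply Subtype.ext
      change e (e y) = y
      rw [hee]
      exact y.2
    rw [h2]
    exact (S' y).2
  · intro S hS
    ext y
    change ((L S y : fixSub e) : Y) = _
    rw [hL, hS]
    rfl

end corner

section

variable {𝕜 : Type w} [RCLike 𝕜] {Γ : Type u} [TopologicalSpace Γ] [DiscreteTopology Γ]
variable {Y : Type*} [NormedAddCommGroup Y] [NormedSpace 𝕜 Y] [CompleteSpace Y]

/-- `ℓ_∞(Γ)` has the SHAI property. -/
theorem shai_linf [Nontrivial Y]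
    (ψ : ((Γ →ᵇ 𝕜) →L[𝕜] (Γ →ᵇ 𝕜)) →ₐ[𝕜] (Y →L[𝕜] Y)) (hψ : Function.Surjective ψ) :
    Function.Injective ψ := by
  classical
  rw [injective_iff_map_eq_zero]
  intro T hT
  by_contra hT0
  obtain ⟨x, t, hxt⟩ : ∃ (x : Γ →ᵇ 𝕜) (t : Γ), T x t ≠ 0 := by
    by_contra hcon
    push Not at hcon
    apply hT0
    ext x t
    exact hcon x t
  -- the coordinate projections
  have h1 : ∀ γ : Γ, ψ (mu (ind {γ})) = 0 := by
    intro γ
    have h2 : (mu (ind {γ}) : (Γ →ᵇ 𝕜) →L[𝕜] (Γ →ᵇ 𝕜)) =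
        (ContinuousLinearMap.smulRight (ev t) ((T x t)⁻¹ • (ind {γ} : Γ →ᵇ 𝕜))) * T *
          (ContinuousLinearMap.smulRight (ev γ) x) := by
      ext a s
      change (ind {γ} : Γ →ᵇ 𝕜) s * a s =
        (T (a γ • x) t) * ((T x t)⁻¹ * (ind {γ} : Γ →ᵇ 𝕜) s)
      rw [map_smul]
      change (ind {γ} : Γ →ᵇ 𝕜) s * a s =
        (a γ * T x t) * ((T x t)⁻¹ * (ind {γ} : Γ →ᵇ 𝕜) s)
      by_cases hs : s = γ
      · subst hs
        rw [ind_of (mem_singleton _)]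
        field_simp
      · rw [ind_not (by simpa using hs)]
        ring
    rw [h2, map_mul, map_mul, hT, mul_zero, zero_mul]
  have hfin : ∀ Λ : Set Γ, Λ.Finite → ψ (mu (ind Λ)) = 0 := by
    intro Λ hΛ
    induction Λ, hΛ using Set.Finite.induction_on with
    | empty =>
      have h2 : (mu (ind (∅ : Set Γ)) : (Γ →ᵇ 𝕜) →L[𝕜] (Γ →ᵇ 𝕜)) = 0 := by
        ext a s
        change (ind (∅ : Set Γ) : Γ →ᵇ 𝕜) s * a s = 0
        rw [ind_not (notMem_empty s), zero_mul]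
      rw [h2, map_zero]
    | @insert a s ha _ ih =>
      have h2 : (ind (insert a s) : Γ →ᵇ 𝕜) = ind {a} + ind s := by
        ext r
        change (ind (insert a s) : Γ →ᵇ 𝕜) r = (ind {a} : Γ →ᵇ 𝕜) r + (ind s : Γ →ᵇ 𝕜) r
        by_cases hr : r = a
        · subst hr
          rw [ind_of (mem_insert _ _), ind_of (mem_singleton _), ind_not ha, add_zero]
        · by_cases hrs : r ∈ s
          · rw [ind_of (mem_insert_of_mem _ hrs), ind_not (by simpa using hr), ind_of hrs,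
              zero_add]
          · rw [ind_not (by simp [hr, hrs]), ind_not (by simpa using hr), ind_not hrs, add_zero]
      rw [h2, mu_add, map_add, h1, ih, add_zero]
  -- a set of minimal cardinality
  obtain ⟨Λ, hΛ0, hΛ⟩ : ∃ Λ : Set Γ, ψ (mu (ind Λ)) ≠ 0 ∧
      ∀ Λ' : Set Γ, #Λ' < #Λ → ψ (mu (ind Λ')) = 0 := by
    have hne : {Λ : Set Γ | ψ (mu (ind Λ)) ≠ 0}.Nonempty := by
      refine ⟨univ, ?_⟩
      have h2 : (mu (ind (univ : Set Γ)) : (Γ →ᵇ 𝕜) →L[𝕜] (Γ →ᵇ 𝕜)) = 1 := by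
        ext a s
        change (ind (univ : Set Γ) : Γ →ᵇ 𝕜) s * a s = a s
        rw [ind_of (mem_univ s), one_mul]
      change ψ (mu (ind univ)) ≠ 0
      rw [h2, map_one]
      exact one_ne_zero
    obtain ⟨Λ, hΛ, hmin⟩ := (InvImage.wf (fun Λ : Set Γ => #Λ)
      (wellFounded_lt (α := Cardinal.{u}))).has_min _ hne
    refine ⟨Λ, hΛ, fun Λ' hlt => ?_⟩
    by_contra hcon
    exact hmin Λ' hcon hlt
  have hinf : Infinite Λ := by
    rw [Set.infinite_coe_iff]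
    intro hf
    exact hΛ0 (hfin Λ hf)
  -- restriction and extension
  obtain ⟨ρ, hρ, -⟩ := exists_op (𝕜 := 𝕜) (Γ := Λ) (fun s => (ev (s : Γ) : (Γ →ᵇ 𝕜) →L[𝕜] 𝕜)) 1
    zero_le_one (by
      intro s a
      rw [one_mul]
      exact ev_le _ _)
  obtain ⟨ι, hι, -⟩ := exists_op (𝕜 := 𝕜) (Γ := Γ)
    (fun s => if h : s ∈ Λ then (ev (⟨s, h⟩ : Λ) : (Λ →ᵇ 𝕜) →L[𝕜] 𝕜) else 0) 1
    zero_le_one (by
      intro s a
      rw [one_mul]
      split_ifs
      · exact ev_le _ _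
      · simp)
  have hρι : ∀ x, ρ (ι x) = x := by
    intro x
    ext s
    rw [hρ]
    change ι x (s : Γ) = x s
    rw [hι, dif_pos s.2]
    rfl
  have hιS : ∀ Λ' : Set Λ, (ι.comp (mu (ind Λ'))).comp ρ = mu (ind (Subtype.val '' Λ')) := by
    intro Λ'
    ext x s
    change ι (mu (ind Λ') (ρ x)) s = (ind (Subtype.val '' Λ') : Γ →ᵇ 𝕜) s * x s
    rw [hι]
    by_cases hs : s ∈ Λ
    · rw [dif_pos hs]
      change (ind Λ' : Λ →ᵇ 𝕜) ⟨s, hs⟩ * ρ x ⟨s, hs⟩ = _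
      rw [hρ]
      change (ind Λ' : Λ →ᵇ 𝕜) ⟨s, hs⟩ * x s = _
      by_cases hs' : (⟨s, hs⟩ : Λ) ∈ Λ'
      · have h3 : s ∈ Subtype.val '' Λ' := ⟨⟨s, hs⟩, hs', rfl⟩
        rw [ind_of hs', ind_of h3]
      · rw [ind_not hs', ind_not]
        rintro ⟨r, hr, hrs⟩
        apply hs'
        have : r = ⟨s, hs⟩ := Subtype.ext hrs
        rwa [← this]
    · rw [dif_neg hs, ind_not, zero_mul]
      · rfl
      · rintro ⟨r, -, hrs⟩
        exact hs (by rw [← hrs]; exact r.2)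
  have hιρ : ι.comp ρ = mu (ind Λ) := by
    have h2 := hιS univ
    rw [image_univ, Subtype.range_coe] at h2
    have h3 : (mu (ind (univ : Set Λ)) : (Λ →ᵇ 𝕜) →L[𝕜] (Λ →ᵇ 𝕜)) = 1 := by
      ext a r
      change (ind (univ : Set Λ) : Λ →ᵇ 𝕜) r * a r = a r
      rw [ind_of (mem_univ r), one_mul]
    rw [← h2, h3]
    rfl
  obtain ⟨ψ0, hψ0, hker⟩ := corner ψ hψ ρ ι hρι
  have : CompleteSpace (fixSub (ψ (ι.comp ρ))) :=
    (isClosed_fixSub (ψ (ι.comp ρ))).completeSpace_coe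
  have : Nontrivial (fixSub (ψ (ι.comp ρ))) := by
    have h2 : ψ (ι.comp ρ) ≠ 0 := by rwa [hιρ]
    obtain ⟨y, hy⟩ : ∃ y, ψ (ι.comp ρ) y ≠ 0 := by
      by_contra hcon
      push Not at hcon
      apply h2
      ext y
      exact hcon y
    refine ⟨⟨ψ (ι.comp ρ) y, ?_⟩, 0, fun h => hy (Subtype.ext_iff.1 h)⟩
    rw [mem_fixSub]
    have h3 : ψ (ι.comp ρ) (ψ (ι.comp ρ) y) = (ψ (ι.comp ρ) * ψ (ι.comp ρ)) y := rfl
    have h4 : (ι.comp ρ) * (ι.comp ρ) = ι.comp ρ := by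
      ext x
      change ι (ρ (ι (ρ x))) _ = ι (ρ x) _
      rw [hρι]
    rw [h3, ← map_mul, h4]
  refine main ψ0 hψ0 fun Λ' hΛ' => hker _ ?_
  rw [hιS]
  apply hΛ
  rwa [Cardinal.mk_image_eq Subtype.val_injective]

end

end Pool.Agent.R634.SH
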