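import Mathlib

/-!
# Large families of functions with small agreement
-/

set_option autoImplicit false

open Set
open scoped Cardinal

namespace Pool.Agent.R634.SH

universe u

/-- For every infinite set `Γ` there are more than `|Γ|` functions from `Γ` to `Γ` any two of which
agree on fewer than `|Γ|` points. -/
theorem exists_ed (Γ : Type u) [Infinite Γ] : ∃ 𝔉 : Set (Γ → Γ), #Γ < #𝔉 ∧
    ∀ f ∈ 𝔉, ∀ g ∈ 𝔉, f ≠ g → #{ξ : Γ | f ξ = g ξ} < #Γ := by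
  classical
  obtain ⟨e⟩ : Nonempty (Γ ≃ (#Γ).ord.ToType) := by
    rw [← Cardinal.eq, Cardinal.mk_ord_toType]
  have hseg : ∀ x : Γ, #{y : Γ | e y ≤ e x} < #Γ := by
    intro x
    have h1 : #{y : Γ | e y ≤ e x} = #(Iic (e x)) := by
      rw [Cardinal.eq]
      exact ⟨e.subtypeEquiv fun y => Iff.rfl⟩
    rw [h1]
    have h2 : #(Iio (e x)) < #Γ := by
      have := Cardinal.mk_Iio_toType_ord_lt (e x)
      exact this
    have h3 : Iic (e x) = insert (e x) (Iio (e x)) := (Iio_insert (a := e x)).symm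
    rw [h3]
    refine (Cardinal.mk_insert_le).trans_lt ?_
    exact Cardinal.add_lt_of_lt (Cardinal.aleph0_le_mk Γ) h2
      (Cardinal.one_lt_aleph0.trans_le (Cardinal.aleph0_le_mk Γ))
  obtain ⟨𝔉, h𝔉⟩ : ∃ 𝔉 : Set (Γ → Γ), Maximal (fun 𝔉 : Set (Γ → Γ) =>
      ∀ f ∈ 𝔉, ∀ g ∈ 𝔉, f ≠ g → #{ξ : Γ | f ξ = g ξ} < #Γ) 𝔉 := by
    refine zorn_subset _ fun c hc hch => ⟨⋃₀ c, ?_, fun s hs => subset_sUnion_of_mem hs⟩
    rintro f ⟨s, hs, hfs⟩ g ⟨t, ht, hgt⟩ hfg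
    rcases hch.total hs ht with h | h
    · exact hc ht f (h hfs) g hgt hfg
    · exact hc hs f hfs g (h hgt) hfg
  refine ⟨𝔉, ?_, h𝔉.1⟩
  by_contra hle
  rw [not_lt] at hle
  obtain ⟨i⟩ : Nonempty (𝔉 ↪ Γ) := hle
  have hex : ∀ ξ : Γ, ∃ v : Γ, ∀ f : 𝔉, e (i f) ≤ e ξ → f.1 ξ ≠ v := by
    intro ξ
    have h1 : #((fun f : 𝔉 => f.1 ξ) '' {f : 𝔉 | e (i f) ≤ e ξ}) < #Γ := by
      refine Cardinal.mk_image_le.trans_lt (lt_of_le_of_lt ?_ (hseg ξ))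
      exact Cardinal.mk_le_of_injective
        (f := fun f : {f : 𝔉 | e (i f) ≤ e ξ} => (⟨i f.1, f.2⟩ : {y : Γ | e y ≤ e ξ}))
        (fun f g h => Subtype.ext (i.injective (Subtype.ext_iff.1 h)))
    have h2 : ((fun f : 𝔉 => f.1 ξ) '' {f : 𝔉 | e (i f) ≤ e ξ}) ≠ univ := by
      intro h
      rw [h, Cardinal.mk_univ] at h1
      exact lt_irrefl _ h1
    obtain ⟨v, hv⟩ := (ne_univ_iff_exists_notMem _).1 h2
    exact ⟨v, fun f hf h => hv ⟨f, hf, h⟩⟩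
  choose h hh using hex
  have hag : ∀ f ∈ 𝔉, #{ξ : Γ | h ξ = f ξ} < #Γ := by
    intro f hf
    refine lt_of_le_of_lt (Cardinal.mk_le_mk_of_subset ?_) (hseg (i ⟨f, hf⟩))
    intro ξ hξ
    change e ξ ≤ e (i ⟨f, hf⟩)
    by_contra hlt
    rw [not_le] at hlt
    exact hh ξ ⟨f, hf⟩ hlt.le (Eq.symm hξ)
  have hnot : h ∉ 𝔉 := by
    intro hmem
    have h1 := hag h hmem
    have h2 : {ξ : Γ | h ξ = h ξ} = univ := by
      ext; simp
    rw [h2, Cardinal.mk_univ] at h1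
    exact lt_irrefl _ h1
  apply hnot
  have hbig : ∀ f ∈ insert h 𝔉, ∀ g ∈ insert h 𝔉, f ≠ g → #{ξ : Γ | f ξ = g ξ} < #Γ := by
    rintro f (rfl | hf) g (rfl | hg) hfg
    · exact absurd rfl hfg
    · exact hag g hg
    · have : {ξ : Γ | f ξ = g ξ} = {ξ : Γ | g ξ = f ξ} := by
        ext ξ; exact eq_comm
      rw [this]
      exact hag f hf
    · exact h𝔉.1 f hf g hg hfg
  exact h𝔉.2 hbig (subset_insert h 𝔉) (mem_insert h 𝔉)

end Pool.Agent.R634.SH
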