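import Mathlib

/-!
# Operators on `ℓ_∞(Γ)`
-/

set_option autoImplicit false

open Set
open scoped Cardinal BoundedContinuousFunction

namespace Pool.Agent.R634.SH

universe u w

section

variable {𝕜 : Type w} [RCLike 𝕜] {Γ : Type u} [TopologicalSpace Γ] [DiscreteTopology Γ]

/-- composition operator -/
noncomputable def co (σ : Γ → Γ) : (Γ →ᵇ 𝕜) →L[𝕜] (Γ →ᵇ 𝕜) :=
  LinearMap.mkContinuous
    { toFun := fun x => x.compContinuous ⟨σ, continuous_of_discreteTopology⟩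
      map_add' := fun _ _ => rfl
      map_smul' := fun _ _ => rfl } 1 (by
    intro x
    rw [one_mul]
    exact (BoundedContinuousFunction.norm_le (norm_nonneg _)).2 fun γ => x.norm_coe_le_norm _)

theorem co_apply (σ : Γ → Γ) (x : Γ →ᵇ 𝕜) (t : Γ) : co σ x t = x (σ t) := rfl

theorem co_norm (σ : Γ → Γ) : ‖(co σ : (Γ →ᵇ 𝕜) →L[𝕜] (Γ →ᵇ 𝕜))‖ ≤ 1 :=
  LinearMap.mkContinuous_norm_le _ zero_le_one _

/-- multiplication operator -/
noncomputable def mu (h : Γ →ᵇ 𝕜) : (Γ →ᵇ 𝕜) →L[𝕜] (Γ →ᵇ 𝕜) :=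
  ContinuousLinearMap.mul 𝕜 (Γ →ᵇ 𝕜) h

theorem mu_apply (h x : Γ →ᵇ 𝕜) (t : Γ) : mu h x t = h t * x t := rfl

theorem mu_norm (h : Γ →ᵇ 𝕜) : ‖mu h‖ ≤ ‖h‖ :=
  ContinuousLinearMap.opNorm_mul_apply_le 𝕜 (Γ →ᵇ 𝕜) h

theorem mu_add (h k : Γ →ᵇ 𝕜) : mu (h + k) = mu h + mu k := map_add _ _ _

theorem mu_smul (c : 𝕜) (h : Γ →ᵇ 𝕜) : mu (c • h) = c • mu h := map_smul _ _ _

open Classical in
/-- indicator function -/
noncomputable def ind (Λ : Set Γ) : Γ →ᵇ 𝕜 :=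
  BoundedContinuousFunction.ofNormedAddCommGroup (fun t => if t ∈ Λ then 1 else 0)
    continuous_of_discreteTopology 1 (by
      intro t
      split_ifs <;> simp)

open Classical in
theorem ind_apply (Λ : Set Γ) (t : Γ) : (ind Λ : Γ →ᵇ 𝕜) t = if t ∈ Λ then 1 else 0 := rfl

theorem ind_norm (Λ : Set Γ) : ‖(ind Λ : Γ →ᵇ 𝕜)‖ ≤ 1 :=
  BoundedContinuousFunction.norm_ofNormedAddCommGroup_le _ zero_le_one _

theorem ind_of {Λ : Set Γ} {t : Γ} (h : t ∈ Λ) : (ind Λ : Γ →ᵇ 𝕜) t = 1 := by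
  classical
  rw [ind_apply, if_pos h]

theorem ind_not {Λ : Set Γ} {t : Γ} (h : t ∉ Λ) : (ind Λ : Γ →ᵇ 𝕜) t = 0 := by
  classical
  rw [ind_apply, if_neg h]

theorem ind_le (Λ : Set Γ) (t : Γ) : ‖(ind Λ : Γ →ᵇ 𝕜) t‖ ≤ 1 :=
  ((ind Λ : Γ →ᵇ 𝕜).norm_coe_le_norm t).trans (ind_norm Λ)

/-- a bounded function from a pointwise bound -/
noncomputable abbrev bcf (g : Γ → 𝕜) (C : ℝ) (h : ∀ t, ‖g t‖ ≤ C) : Γ →ᵇ 𝕜 :=
  BoundedContinuousFunction.ofNormedAddCommGroup g continuous_of_discreteTopology C h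

/-- an operator given by its coordinates -/
theorem exists_op {E : Type*} [NormedAddCommGroup E] [NormedSpace 𝕜 E] (g : Γ → E →L[𝕜] 𝕜)
    (C : ℝ) (hC : 0 ≤ C) (h : ∀ t x, ‖g t x‖ ≤ C * ‖x‖) :
    ∃ T : E →L[𝕜] (Γ →ᵇ 𝕜), (∀ x t, T x t = g t x) ∧ ‖T‖ ≤ C := by
  refine ⟨LinearMap.mkContinuous
    { toFun := fun x => bcf (fun t => g t x) (C * ‖x‖) (fun t => h t x)
      map_add' := fun x y => by
        ext t
        exact map_add (g t) x y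
      map_smul' := fun c x => by
        ext t
        exact map_smul (g t) c x } C ?_, fun x t => rfl, ?_⟩
  · intro x
    exact (BoundedContinuousFunction.norm_le (by positivity)).2 fun t => h t x
  · exact LinearMap.mkContinuous_norm_le _ hC _

/-- evaluation -/
noncomputable def ev (t : Γ) : (Γ →ᵇ 𝕜) →L[𝕜] 𝕜 :=
  LinearMap.mkContinuous
    { toFun := fun x => x t
      map_add' := fun _ _ => rfl
      map_smul' := fun _ _ => rfl } 1 (by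
    intro x
    rw [one_mul]
    exact x.norm_coe_le_norm t)

theorem ev_apply (t : Γ) (x : Γ →ᵇ 𝕜) : ev t x = x t := rfl

theorem ev_le (t : Γ) (x : Γ →ᵇ 𝕜) : ‖ev t x‖ ≤ ‖x‖ := x.norm_coe_le_norm t

end

end Pool.Agent.R634.SH
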