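import Mathlib

/-!
# Rosenthal's lemma for families of functionals on `ℓ_∞(Γ)`
-/

set_option autoImplicit false

open Set
open scoped Cardinal BoundedContinuousFunction

namespace Pool.Agent.R634.SH

universe u w

section

variable {𝕜 : Type w} [RCLike 𝕜] {Γ : Type u} [TopologicalSpace Γ] [DiscreteTopology Γ]

/-- a unimodular factor -/
theorem exists_phase (c : 𝕜) : ∃ θ : 𝕜, ‖θ‖ = 1 ∧ θ * c = (‖c‖ : 𝕜) := by
  by_cases hc : c = 0
  · exact ⟨1, by simp, by simp [hc]⟩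
  · have hn : (‖c‖ : 𝕜) ≠ 0 := by simpa using hc
    refine ⟨(‖c‖ : 𝕜) / c, ?_, ?_⟩
    · rw [norm_div, RCLike.norm_ofReal, abs_norm, div_self]
      simpa using hc
    · rw [div_mul_cancel₀ _ hc]

theorem ros_aux [Infinite Γ] (m : Γ → (Γ →ᵇ 𝕜) →L[𝕜] 𝕜) (ε : ℝ) (hε : 0 < ε) (n : ℕ) :
    ∀ S₀ : Set Γ, #S₀ = #Γ →
    (∀ k ∈ S₀, ∀ a : Γ →ᵇ 𝕜, (∀ t, a t ≠ 0 → t ∈ S₀) → ‖a‖ ≤ 1 → ‖m k a‖ ≤ n * ε) →
    ∃ S ⊆ S₀, #S = #Γ ∧ ∀ k ∈ S, ∀ a : Γ →ᵇ 𝕜, (∀ t, a t ≠ 0 → t ∈ S ∧ t ≠ k) → ‖a‖ ≤ 1 →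
      ‖m k a‖ ≤ ε := by
  classical
  induction n with
  | zero =>
    intro S₀ hS₀ h
    refine ⟨S₀, subset_rfl, hS₀, fun k hk a ha ha1 => ?_⟩
    have := h k hk a (fun t ht => (ha t ht).1) ha1
    simp only [Nat.cast_zero, zero_mul] at this
    exact this.trans hε.le
  | succ n ih =>
    intro S₀ hS₀ h
    obtain ⟨g⟩ : Nonempty (Γ × Γ ≃ S₀) := by
      rw [← Cardinal.eq, hS₀, Cardinal.mk_prod, Cardinal.lift_id,
        Cardinal.mul_eq_self (Cardinal.aleph0_le_mk Γ)]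
    set N : Γ → Set Γ := fun p => range fun q => (g (p, q) : Γ) with hN
    have hNS : ∀ p, N p ⊆ S₀ := by
      rintro p _ ⟨q, rfl⟩
      exact (g (p, q)).2
    have hNc : ∀ p, #(N p) = #Γ := by
      intro p
      rw [hN]
      refine Cardinal.mk_range_eq _ fun q q' hqq => ?_
      have := g.injective (Subtype.ext hqq)
      exact (Prod.ext_iff.1 this).2
    have hNd : ∀ p p' t, t ∈ N p → t ∈ N p' → p = p' := by
      rintro p p' _ ⟨q, rfl⟩ ⟨q', hq'⟩
      have := g.injective (Subtype.ext hq')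
      exact (Prod.ext_iff.1 this).1.symm
    by_cases hp : ∃ p, ∀ k ∈ N p, ∀ a : Γ →ᵇ 𝕜, (∀ t, a t ≠ 0 → t ∈ N p ∧ t ≠ k) → ‖a‖ ≤ 1 →
        ‖m k a‖ ≤ ε
    · obtain ⟨p, hp⟩ := hp
      exact ⟨N p, hNS p, hNc p, hp⟩
    · push Not at hp
      choose k hk a ha ha1 hma using hp
      have hkinj : Function.Injective k := by
        intro p p' hpp
        exact hNd p p' (k p) (hk p) (by rw [hpp]; exact hk p')
      obtain ⟨S, hS, hSc, hSm⟩ := ih (range k) (Cardinal.mk_range_eq _ hkinj) (by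
        rintro _ ⟨p, rfl⟩ x hx hx1
        obtain ⟨θ, hθ, hθm⟩ := exists_phase (m (k p) x)
        obtain ⟨η, hη, hηm⟩ := exists_phase (m (k p) (a p))
        have hn : ‖θ • x + η • a p‖ ≤ 1 := by
          refine (BoundedContinuousFunction.norm_le zero_le_one).2 fun t => ?_
          simp only [BoundedContinuousFunction.coe_add, BoundedContinuousFunction.coe_smul,
            Pi.add_apply, smul_eq_mul]
          by_cases hat : a p t = 0
          · rw [hat, mul_zero, add_zero, norm_mul, hθ, one_mul]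
            exact (x.norm_coe_le_norm t).trans hx1
          · have hxt : x t = 0 := by
              by_contra hxt
              obtain ⟨p', hp'⟩ := hx t hxt
              have h1 := (ha p t hat)
              have h2 : p = p' := hNd p p' t h1.1 (by rw [← hp']; exact hk p')
              subst h2
              exact h1.2 hp'.symm
            rw [hxt, mul_zero, zero_add, norm_mul, hη, one_mul]
            exact ((a p).norm_coe_le_norm t).trans (ha1 p)
        have hs : ∀ t, (θ • x + η • a p) t ≠ 0 → t ∈ S₀ := by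
          intro t ht
          by_contra hcon
          apply ht
          have h1 : x t = 0 := by
            by_contra h1
            obtain ⟨p', hp'⟩ := hx t h1
            exact hcon (by rw [← hp']; exact hNS p' (hk p'))
          have h2 : a p t = 0 := by
            by_contra h2
            exact hcon (hNS p (ha p t h2).1)
          simp [h1, h2]
        have h3 := h (k p) (hNS p (hk p)) _ hs hn
        rw [map_add, map_smul, map_smul, smul_eq_mul, smul_eq_mul, hθm, hηm,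
          ← RCLike.ofReal_add, RCLike.norm_ofReal, abs_of_nonneg (by positivity)] at h3
        have h4 := hma p
        push_cast at h3
        nlinarith)
      refine ⟨S, fun t ht => ?_, hSc, hSm⟩
      obtain ⟨p, hp⟩ := hS ht
      rw [← hp]
      exact hNS p (hk p)

/-- **Rosenthal's lemma.** -/
theorem rosenthal [Infinite Γ] (m : Γ → (Γ →ᵇ 𝕜) →L[𝕜] 𝕜) (K : ℝ) (hm : ∀ k, ‖m k‖ ≤ K)
    (ε : ℝ) (hε : 0 < ε) : ∃ S : Set Γ, #S = #Γ ∧ ∀ k ∈ S, ∀ a : Γ →ᵇ 𝕜,
      (∀ t, a t ≠ 0 → t ∈ S ∧ t ≠ k) → ‖m k a‖ ≤ ε * ‖a‖ := by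
  obtain ⟨n, hn⟩ := exists_nat_ge (K / ε)
  have hnK : K ≤ n * ε := by
    rwa [div_le_iff₀ hε] at hn
  obtain ⟨S, -, hSc, hS⟩ := ros_aux m ε hε n univ Cardinal.mk_univ (by
    intro k _ a _ ha1
    calc ‖m k a‖ ≤ ‖m k‖ * ‖a‖ := (m k).le_opNorm a
      _ ≤ ‖m k‖ * 1 := mul_le_mul_of_nonneg_left ha1 (norm_nonneg _)
      _ ≤ n * ε := by rw [mul_one]; exact (hm k).trans hnK)
  refine ⟨S, hSc, fun k hk a ha => ?_⟩
  by_cases ha0 : a = 0
  · simp [ha0]
  have hna : 0 < ‖a‖ := norm_pos_iff.2 ha0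
  have h1 := hS k hk (((‖a‖ : ℝ) : 𝕜)⁻¹ • a) (by
    intro t ht
    apply ha t
    intro h0
    apply ht
    simp [h0]) (by
    rw [norm_smul, norm_inv, RCLike.norm_ofReal, abs_norm, inv_mul_cancel₀ hna.ne'])
  rw [map_smul, norm_smul, norm_inv, RCLike.norm_ofReal, abs_norm,
    inv_mul_le_iff₀ hna] at h1
  linarith

end

end Pool.Agent.R634.SH
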