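import Pool.Agent.H148R3.Auto
import Pool.Agent.R634.SH.Ros
import Pool.Agent.R634.SH.Ops

/-!
# The target space embeds into `ℓ_∞(Γ)`
-/

set_option autoImplicit false

open Set
open scoped Cardinal BoundedContinuousFunction

namespace Pool.Agent.R634.SH

open Pool.Agent.H148R3

universe u w

section

variable {𝕜 : Type w} [RCLike 𝕜] {Γ : Type u} [TopologicalSpace Γ] [DiscreteTopology Γ]
variable {Y : Type*} [NormedAddCommGroup Y] [NormedSpace 𝕜 Y] [CompleteSpace Y]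

theorem exists_pair (𝕜 : Type w) [RCLike 𝕜] (Y : Type*) [NormedAddCommGroup Y] [NormedSpace 𝕜 Y]
    [Nontrivial Y] : ∃ (z : Y) (f : Y →L[𝕜] 𝕜), z ≠ 0 ∧ f z = 1 := by
  obtain ⟨y0, hy0⟩ := exists_ne (0 : Y)
  obtain ⟨f, -, hf⟩ := exists_dual_vector 𝕜 y0 (norm_ne_zero_iff.2 hy0)
  have hn0 : ((‖y0‖ : ℝ) : 𝕜) ≠ 0 := by simpa using hy0
  refine ⟨y0, ((‖y0‖ : ℝ) : 𝕜)⁻¹ • f, hy0, ?_⟩
  rw [smul_apply, hf, smul_eq_mul, inv_mul_cancel₀ hn0]

theorem embed [Infinite Γ] [Nontrivial Y]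
    (ψ : ((Γ →ᵇ 𝕜) →L[𝕜] (Γ →ᵇ 𝕜)) →ₐ[𝕜] (Y →L[𝕜] Y)) (hψ : Function.Surjective ψ) :
    ∃ G : Y →L[𝕜] (Γ →ᵇ 𝕜), Function.Injective G := by
  classical
  obtain ⟨C, hC0, hC⟩ := auto_cont (A := (Γ →ᵇ 𝕜) →L[𝕜] (Γ →ᵇ 𝕜)) ψ hψ
  obtain ⟨φ⟩ : Nonempty (Γ ≃ Γ × Γ) := by
    rw [← Cardinal.eq, Cardinal.mk_prod, Cardinal.lift_id,
      Cardinal.mul_eq_self (Cardinal.aleph0_le_mk Γ)]
  obtain ⟨z, f, hz, hfz⟩ := exists_pair 𝕜 Y
  have hzp : 0 < ‖z‖ := norm_pos_iff.2 hz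
  set p1 : Γ → Γ := fun t => (φ t).1 with hp1
  set p2 : Γ → Γ := fun t => (φ t).2 with hp2
  let V : Γ → ((Γ →ᵇ 𝕜) →L[𝕜] (Γ →ᵇ 𝕜)) := fun k => mu (co p1 (ind {k})) * co p2
  let W : Γ → ((Γ →ᵇ 𝕜) →L[𝕜] (Γ →ᵇ 𝕜)) := fun k => co fun t => φ.symm (k, t)
  have hWV : ∀ j k, W j * V k = if j = k then 1 else 0 := by
    intro j k
    ext x t
    have h1 : (W j * V k) x t = (ind {k} : Γ →ᵇ 𝕜) j * x t := by
      change (ind {k} : Γ →ᵇ 𝕜) (φ (φ.symm (j, t))).1 * x (φ (φ.symm (j, t))).2 = _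
      rw [Equiv.apply_symm_apply]
    rw [h1]
    split_ifs with hjk
    · rw [ind_of (by simp [hjk]), one_mul]
      rfl
    · rw [ind_not (by simpa using hjk), zero_mul]
      rfl
  -- the operator from bounded functions
  obtain ⟨J, hJ⟩ : ∃ J : (Γ →ᵇ 𝕜) →L[𝕜] Y, ∀ a, J a = ψ (mu (co p1 a) * co p2) z := by
    refine ⟨LinearMap.mkContinuous
      { toFun := fun a => ψ (mu (co p1 a) * co p2) z
        map_add' := fun a b => by
          rw [map_add, mu_add, add_mul, map_add]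
          rfl
        map_smul' := fun c a => by
          have h1 : mu (co p1 (c • a)) * co p2 = c • (mu (co p1 a) * co p2) := by
            rw [map_smul, mu_smul]
            rfl
          rw [h1, map_smul]
          rfl } (C * ‖z‖) ?_, fun a => rfl⟩
    intro a
    have h1 : ‖mu (co p1 a) * co p2‖ ≤ ‖a‖ := by
      refine (norm_mul_le _ _).trans ?_
      have h2 : ‖mu (co p1 a)‖ ≤ ‖a‖ := by
        refine (mu_norm _).trans ?_
        refine ((co p1 : (Γ →ᵇ 𝕜) →L[𝕜] (Γ →ᵇ 𝕜)).le_opNorm a).trans ?_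
        exact mul_le_of_le_one_left (norm_nonneg _) (co_norm p1)
      calc ‖mu (co p1 a)‖ * ‖(co p2 : (Γ →ᵇ 𝕜) →L[𝕜] (Γ →ᵇ 𝕜))‖ ≤ ‖a‖ * 1 :=
            mul_le_mul h2 (co_norm p2) (norm_nonneg _) (norm_nonneg _)
        _ = ‖a‖ := mul_one _
    change ‖ψ (mu (co p1 a) * co p2) z‖ ≤ _
    calc ‖ψ (mu (co p1 a) * co p2) z‖ ≤ ‖ψ (mu (co p1 a) * co p2)‖ * ‖z‖ :=
          ContinuousLinearMap.le_opNorm _ _
      _ ≤ (C * ‖a‖) * ‖z‖ := by
          refine mul_le_mul_of_nonneg_right ((hC _).trans ?_) (norm_nonneg _)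
          exact mul_le_mul_of_nonneg_left h1 hC0
      _ = C * ‖z‖ * ‖a‖ := by ring
  obtain ⟨R, hR, -⟩ := exists_op (𝕜 := 𝕜) (Γ := Γ) (fun j => f.comp (ψ (W j))) (‖f‖ * C)
    (by positivity) (by
      intro t y
      calc ‖f (ψ (W t) y)‖ ≤ ‖f‖ * ‖ψ (W t) y‖ := f.le_opNorm _
        _ ≤ ‖f‖ * (C * 1 * ‖y‖) := by
            refine mul_le_mul_of_nonneg_left ?_ (norm_nonneg _)
            refine ((ψ (W t)).le_opNorm y).trans ?_
            refine mul_le_mul_of_nonneg_right ((hC _).trans ?_) (norm_nonneg _)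
            exact mul_le_mul_of_nonneg_left (co_norm _) hC0
        _ = ‖f‖ * C * ‖y‖ := by ring)
  have hRV : ∀ k, R (ψ (V k) z) = ind {k} := by
    intro k
    ext j
    rw [hR]
    have h1 : (f.comp (ψ (W j))) (ψ (V k) z) = f (ψ (W j * V k) z) := by
      rw [map_mul ψ (W j) (V k)]
      rfl
    rw [h1, hWV]
    split_ifs with hjk
    · rw [map_one, ind_of (by simp [hjk])]
      exact hfz
    · rw [map_zero, ind_not (by simpa using hjk)]
      exact map_zero f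
  obtain ⟨P0, hP0⟩ := hψ (J.comp R)
  have hkey : ∀ k, ψ (W k * P0 * V k) z = z := by
    intro k
    have h1 : ψ (W k * P0 * V k) z = ψ (W k) (ψ P0 (ψ (V k) z)) := by
      rw [map_mul ψ (W k * P0) (V k), map_mul ψ (W k) P0]
      rfl
    have h2 : ψ P0 (ψ (V k) z) = ψ (V k) z := by
      rw [hP0]
      change J (R (ψ (V k) z)) = _
      rw [hRV, hJ]
    have h3 : ψ (W k) (ψ (V k) z) = ψ (W k * V k) z := by
      rw [map_mul ψ (W k) (V k)]
      rfl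
    rw [h1, h2, h3, hWV, if_pos rfl, map_one]
    rfl
  have hnorm : ∀ k, 1 ≤ C * ‖W k * P0 * V k‖ := by
    intro k
    have h1 : ‖z‖ ≤ C * ‖W k * P0 * V k‖ * ‖z‖ := by
      conv_lhs => rw [← hkey k]
      exact ((ψ (W k * P0 * V k)).le_opNorm z).trans
        (mul_le_mul_of_nonneg_right (hC _) (norm_nonneg _))
    by_contra hlt
    rw [not_le] at hlt
    have := mul_lt_mul_of_pos_right hlt hzp
    linarith
  have hCp : 0 < C := by
    obtain ⟨k⟩ : Nonempty Γ := inferInstance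
    by_contra hcon
    have : C = 0 := le_antisymm (not_lt.1 hcon) hC0
    have h1 := hnorm k
    rw [this, zero_mul] at h1
    linarith
  set c : ℝ := 1 / (2 * C) with hc
  have hcp : 0 < c := by positivity
  have hclt : ∀ k, c < ‖W k * P0 * V k‖ := by
    intro k
    have h1 := hnorm k
    rw [hc, div_lt_iff₀ (by positivity)]
    nlinarith
  have hxt : ∀ k, ∃ (x : Γ →ᵇ 𝕜) (t : Γ), ‖x‖ ≤ 1 ∧ c < ‖(W k * P0 * V k) x t‖ := by
    intro k
    obtain ⟨x, hx1, hx2⟩ := ContinuousLinearMap.exists_lt_apply_of_lt_opNorm _ (hclt k)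
    by_contra hcon
    push Not at hcon
    have h1 : ‖(W k * P0 * V k) x‖ ≤ c :=
      (BoundedContinuousFunction.norm_le hcp.le).2 fun t => hcon x t hx1.le
    linarith
  choose xk tk hxk htk using hxt
  obtain ⟨B, hB, hB1⟩ := exists_op (𝕜 := 𝕜) (Γ := Γ)
    (fun t => (xk (p1 t) (p2 t)) • (ev (p1 t) : (Γ →ᵇ 𝕜) →L[𝕜] 𝕜)) 1 zero_le_one (by
      intro t a
      rw [smul_apply, norm_smul]
      have h1 : ‖xk (p1 t) (p2 t)‖ ≤ 1 := ((xk (p1 t)).norm_coe_le_norm _).trans (hxk _)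
      exact mul_le_mul h1 (ev_le _ _) (norm_nonneg _) zero_le_one)
  have hBV : ∀ k, B (ind {k}) = V k (xk k) := by
    intro k
    ext t
    rw [hB]
    change xk (p1 t) (p2 t) * (ind {k} : Γ →ᵇ 𝕜) (p1 t) =
      (ind {k} : Γ →ᵇ 𝕜) (p1 t) * xk k (p2 t)
    by_cases h : p1 t = k
    · rw [h, mul_comm]
    · rw [ind_not (by simpa using h), mul_zero, zero_mul]
  set m : Γ → (Γ →ᵇ 𝕜) →L[𝕜] 𝕜 := fun k =>
    ((ev (φ.symm (k, tk k))).comp P0).comp B with hm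
  have hmn : ∀ k, ‖m k‖ ≤ ‖P0‖ := by
    intro k
    refine ContinuousLinearMap.opNorm_le_bound _ (norm_nonneg _) fun a => ?_
    calc ‖m k a‖ ≤ ‖P0 (B a)‖ := ev_le _ _
      _ ≤ ‖P0‖ * ‖B a‖ := P0.le_opNorm _
      _ ≤ ‖P0‖ * ‖a‖ := by
          refine mul_le_mul_of_nonneg_left ?_ (norm_nonneg _)
          exact (B.le_opNorm a).trans (mul_le_of_le_one_left (norm_nonneg _) hB1)
  have hmk : ∀ k, c < ‖m k (ind {k})‖ := by
    intro k
    have h1 : m k (ind {k}) = (W k * P0 * V k) (xk k) (tk k) := by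
      change P0 (B (ind {k})) (φ.symm (k, tk k)) = P0 (V k (xk k)) (φ.symm (k, tk k))
      rw [hBV]
    rw [h1]
    exact htk k
  obtain ⟨S, hSc, hS⟩ := rosenthal m ‖P0‖ hmn (c / 2) (by positivity)
  obtain ⟨σ⟩ : Nonempty (Γ ≃ S) := by
    rw [← Cardinal.eq, hSc]
  obtain ⟨X1, hX1, hX1n⟩ := exists_op (𝕜 := 𝕜) (Γ := Γ)
    (fun t => if h : t ∈ S then (ev (σ.symm ⟨t, h⟩) : (Γ →ᵇ 𝕜) →L[𝕜] 𝕜) else 0) 1
    zero_le_one (by
      intro t a
      rw [one_mul]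
      split_ifs with h
      · exact ev_le _ _
      · simp)
  obtain ⟨A1, hA1, -⟩ := exists_op (𝕜 := 𝕜) (Γ := Γ)
    (fun t => (m (σ t) (ind {(σ t : Γ)}))⁻¹ • (ev (φ.symm ((σ t : Γ), tk (σ t))) :
      (Γ →ᵇ 𝕜) →L[𝕜] 𝕜)) (1 / c) (by positivity) (by
      intro t a
      rw [smul_apply, norm_smul, norm_inv, one_div]
      refine mul_le_mul ?_ (ev_le _ _) (norm_nonneg _) (by positivity)
      exact inv_anti₀ hcp (hmk _).le)
  set D : (Γ →ᵇ 𝕜) →L[𝕜] (Γ →ᵇ 𝕜) := A1 * P0 * (B * X1) with hD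
  have hDa : ∀ a t, D a t = (m (σ t) (ind {(σ t : Γ)}))⁻¹ * m (σ t) (X1 a) := by
    intro a t
    change A1 (P0 (B (X1 a))) t = _
    rw [hA1]
    rfl
  have hDn : ‖1 - D‖ ≤ 1 / 2 := by
    refine ContinuousLinearMap.opNorm_le_bound _ (by norm_num) fun a => ?_
    refine (BoundedContinuousFunction.norm_le (by positivity)).2 fun t => ?_
    have hm0 : m (σ t) (ind {(σ t : Γ)}) ≠ 0 := by
      intro h0
      have := hmk (σ t)
      rw [h0, norm_zero] at this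
      linarith
    set r : Γ →ᵇ 𝕜 := X1 a - a t • ind {(σ t : Γ)} with hr
    have hX1t : ∀ s, X1 a s = if h : s ∈ S then a (σ.symm ⟨s, h⟩) else 0 := by
      intro s
      rw [hX1]
      split_ifs <;> rfl
    have hrσ : r (σ t) = 0 := by
      change X1 a (σ t) - a t * (ind {(σ t : Γ)} : Γ →ᵇ 𝕜) (σ t) = 0
      rw [hX1t, dif_pos (σ t).2, ind_of (mem_singleton _), mul_one]
      simp
    have hrs : ∀ s, s ≠ (σ t : Γ) → r s = X1 a s := by
      intro s hs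
      change X1 a s - a t * (ind {(σ t : Γ)} : Γ →ᵇ 𝕜) s = X1 a s
      rw [ind_not (by rw [mem_singleton_iff]; exact hs), mul_zero, sub_zero]
    have hrn : ‖r‖ ≤ ‖a‖ := by
      refine (BoundedContinuousFunction.norm_le (norm_nonneg _)).2 fun s => ?_
      by_cases hs : s = (σ t : Γ)
      · rw [hs, hrσ, norm_zero]
        exact norm_nonneg _
      · rw [hrs s hs, hX1t]
        split_ifs
        · exact a.norm_coe_le_norm _
        · simp
    have hrsupp : ∀ s, r s ≠ 0 → s ∈ S ∧ s ≠ (σ t : Γ) := by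
      intro s hs
      have h1 : s ≠ (σ t : Γ) := by
        rintro rfl
        exact hs hrσ
      refine ⟨?_, h1⟩
      by_contra hsS
      apply hs
      rw [hrs s h1, hX1t, dif_neg hsS]
    have h2 := hS (σ t) (σ t).2 r hrsupp
    have h3 : (1 - D) a t = -((m (σ t) (ind {(σ t : Γ)}))⁻¹ * m (σ t) r) := by
      have h4 : (1 - D) a t = a t - D a t := rfl
      rw [h4, hDa, hr, map_sub, map_smul, smul_eq_mul]
      field_simp
      ring
    rw [h3, norm_neg, norm_mul, norm_inv]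
    have h5 : ‖m (σ t) (ind {(σ t : Γ)})‖⁻¹ ≤ c⁻¹ := inv_anti₀ hcp (hmk _).le
    calc ‖m (σ t) (ind {(σ t : Γ)})‖⁻¹ * ‖m (σ t) r‖ ≤ c⁻¹ * (c / 2 * ‖a‖) := by
          refine mul_le_mul h5 (h2.trans ?_) (norm_nonneg _) (by positivity)
          exact mul_le_mul_of_nonneg_left hrn (by positivity)
      _ = 1 / 2 * ‖a‖ := by
          field_simp
  have hlt : ‖1 - D‖ < 1 := lt_of_le_of_lt hDn (by norm_num)
  obtain ⟨Q, hQ⟩ : ∃ Q : (Γ →ᵇ 𝕜) →L[𝕜] (Γ →ᵇ 𝕜), Q * D = 1 := by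
    obtain ⟨U, hU⟩ : ∃ U : ((Γ →ᵇ 𝕜) →L[𝕜] (Γ →ᵇ 𝕜))ˣ, (U : (Γ →ᵇ 𝕜) →L[𝕜] (Γ →ᵇ 𝕜)) = D :=
      ⟨Units.oneSub (1 - D) hlt, by rw [Units.val_oneSub, sub_sub_cancel]⟩
    exact ⟨↑U⁻¹, by rw [← hU]; exact Units.inv_mul U⟩
  refine ⟨R.comp (ψ (B * X1)), ?_⟩
  rw [injective_iff_map_eq_zero]
  intro y hy
  have h1 : y = ψ (Q * D) y := by
    rw [hQ, map_one]
    rfl
  have h2 : ψ (Q * D) y = ψ Q (ψ A1 (ψ P0 (ψ (B * X1) y))) := by
    rw [hD, map_mul ψ Q, map_mul ψ (A1 * P0) (B * X1), map_mul ψ A1 P0]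
    rfl
  have h3 : ψ P0 (ψ (B * X1) y) = 0 := by
    rw [hP0]
    change J (R (ψ (B * X1) y)) = 0
    have h4 : R (ψ (B * X1) y) = 0 := hy
    rw [h4, map_zero]
  rw [h1, h2, h3, map_zero, map_zero]

end

end Pool.Agent.R634.SH
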