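import Pool.Agent.R634.SH.Ad
import Pool.Agent.R634.SH.Embed

/-!
# No surjective homomorphism kills the projections onto small sets
-/

set_option autoImplicit false

open Set
open scoped Cardinal BoundedContinuousFunction

namespace Pool.Agent.R634.SH

open Pool.Agent.H148R3

universe u w

section

variable {𝕜 : Type w} [RCLike 𝕜] {Γ : Type u} [TopologicalSpace Γ] [DiscreteTopology Γ]
variable {Y : Type*} [NormedAddCommGroup Y] [NormedSpace 𝕜 Y] [CompleteSpace Y]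

omit [TopologicalSpace Γ] [DiscreteTopology Γ] in
theorem small_biUnion [Infinite Γ] {ι : Type*} (F : Finset ι) (B : ι → Set Γ)
    (h : ∀ i ∈ F, #(B i) < #Γ) : #(⋃ i ∈ F, B i : Set Γ) < #Γ := by
  classical
  induction F using Finset.induction_on with
  | empty =>
    have h0 : (⋃ i ∈ (∅ : Finset ι), B i : Set Γ) = ∅ := by simp
    rw [h0, Cardinal.mk_eq_zero]
    exact Cardinal.aleph0_pos.trans_le (Cardinal.aleph0_le_mk Γ)
  | insert a F ha ih =>
    rw [Finset.set_biUnion_insert]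
    refine (Cardinal.mk_union_le _ _).trans_lt ?_
    exact Cardinal.add_lt_of_lt (Cardinal.aleph0_le_mk Γ) (h a (Finset.mem_insert_self _ _))
      (ih fun i hi => h i (Finset.mem_insert_of_mem hi))

theorem main [Infinite Γ] [Nontrivial Y]
    (ψ : ((Γ →ᵇ 𝕜) →L[𝕜] (Γ →ᵇ 𝕜)) →ₐ[𝕜] (Y →L[𝕜] Y)) (hψ : Function.Surjective ψ)
    (hsmall : ∀ Λ : Set Γ, #Λ < #Γ → ψ (mu (ind Λ)) = 0) : False := by
  classical
  obtain ⟨C, hC0, hC⟩ := auto_cont (A := (Γ →ᵇ 𝕜) →L[𝕜] (Γ →ᵇ 𝕜)) ψ hψ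
  obtain ⟨φ⟩ : Nonempty (Γ ≃ Γ × Γ) := by
    rw [← Cardinal.eq, Cardinal.mk_prod, Cardinal.lift_id,
      Cardinal.mul_eq_self (Cardinal.aleph0_le_mk Γ)]
  obtain ⟨z, hz⟩ := exists_ne (0 : Y)
  obtain ⟨G, hG⟩ := embed ψ hψ
  obtain ⟨𝔉, h𝔉c, h𝔉⟩ := exists_ed Γ
  set p1 : Γ → Γ := fun t => (φ t).1 with hp1
  let A : 𝔉 → Set Γ := fun f => {t | (φ t).2 = f.1 (φ t).1}
  let V : 𝔉 → ((Γ →ᵇ 𝕜) →L[𝕜] (Γ →ᵇ 𝕜)) := fun f => mu (ind (A f)) * co p1
  let W : 𝔉 → ((Γ →ᵇ 𝕜) →L[𝕜] (Γ →ᵇ 𝕜)) := fun f => co fun j => φ.symm (j, f.1 j)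
  have hWV : ∀ f, W f * V f = 1 := by
    intro f
    ext x j
    change (ind (A f) : Γ →ᵇ 𝕜) (φ.symm (j, f.1 j)) * x (φ (φ.symm (j, f.1 j))).1 = x j
    rw [Equiv.apply_symm_apply, ind_of, one_mul]
    change (φ (φ.symm (j, f.1 j))).2 = f.1 (φ (φ.symm (j, f.1 j))).1
    rw [Equiv.apply_symm_apply]
  have hA : ∀ f g : 𝔉, f ≠ g → #(A f ∩ A g : Set Γ) < #Γ := by
    intro f g hfg
    refine lt_of_le_of_lt ?_ (h𝔉 f.1 f.2 g.1 g.2 fun h => hfg (Subtype.ext h))
    refine Cardinal.mk_le_of_injective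
      (f := fun t : (A f ∩ A g : Set Γ) => (⟨p1 t.1, ?_⟩ : {ξ : Γ | f.1 ξ = g.1 ξ})) ?_
    · have h1 : (φ t.1).2 = f.1 (φ t.1).1 := t.2.1
      have h2 : (φ t.1).2 = g.1 (φ t.1).1 := t.2.2
      exact h1.symm.trans h2
    · intro t s hts
      have h1 : p1 t.1 = p1 s.1 := Subtype.ext_iff.1 hts
      apply Subtype.ext
      apply φ.injective
      refine Prod.ext h1 ?_
      have h2 : (φ t.1).2 = f.1 (φ t.1).1 := t.2.1
      have h3 : (φ s.1).2 = f.1 (φ s.1).1 := s.2.1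
      have h4 : (φ t.1).1 = (φ s.1).1 := h1
      rw [h2, h3, h4]
  have hzf : ∀ f, ψ (V f) z ≠ 0 := by
    intro f h0
    apply hz
    have h1 : ψ (W f) (ψ (V f) z) = ψ (W f * V f) z := by
      rw [map_mul ψ (W f) (V f)]
      rfl
    rw [h0, map_zero, hWV, map_one] at h1
    exact h1.symm
  -- the finite sums are bounded
  have hbound : ∀ (g : Y →L[𝕜] 𝕜) (F : Finset 𝔉),
      ∑ f ∈ F, ‖g (ψ (V f) z)‖ ≤ ‖g‖ * (C * ‖z‖) := by
    intro g F
    choose θ hθ1 hθ2 using fun f : 𝔉 => exists_phase (g (ψ (V f) z))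
    set U : 𝔉 → Set Γ := fun f => ⋃ f' ∈ F.erase f, (A f ∩ A f') with hU
    set A' : 𝔉 → Set Γ := fun f => A f \ U f with hA'
    have hUs : ∀ f, ψ (mu (ind (U f))) = 0 := by
      intro f
      apply hsmall
      exact small_biUnion _ _ fun f' hf' => hA f f' (Finset.ne_of_mem_erase hf').symm
    have hUA : ∀ f, U f ⊆ A f := by
      intro f t ht
      simp only [hU, mem_iUnion] at ht
      obtain ⟨f', -, hf'⟩ := ht
      exact hf'.1
    have hind : ∀ f, (ind (A f) : Γ →ᵇ 𝕜) = ind (A' f) + ind (U f) := by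
      intro f
      ext t
      rw [BoundedContinuousFunction.coe_add, Pi.add_apply]
      by_cases h1 : t ∈ A f
      · by_cases h2 : t ∈ U f
        · rw [ind_of h1, ind_not (fun h => h.2 h2), ind_of h2, zero_add]
        · have h3 : t ∈ A' f := ⟨h1, h2⟩
          rw [ind_of h1, ind_of h3, ind_not h2, add_zero]
      · rw [ind_not h1, ind_not (fun h => h1 h.1), ind_not (fun h => h1 (hUA f h)), add_zero]
    have hψV : ∀ f, ψ (mu (ind (A' f)) * co p1) = ψ (V f) := by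
      intro f
      change _ = ψ (mu (ind (A f)) * co p1)
      rw [hind f, mu_add, add_mul, map_add, map_mul ψ (mu (ind (U f))) (co p1), hUs, zero_mul,
        add_zero]
    set T : (Γ →ᵇ 𝕜) →L[𝕜] (Γ →ᵇ 𝕜) := ∑ f ∈ F, θ f • (mu (ind (A' f)) * co p1) with hT
    have hdisj : ∀ f ∈ F, ∀ f' ∈ F, ∀ t, t ∈ A' f → t ∈ A' f' → f = f' := by
      intro f hf f' hf' t ht ht'
      by_contra hne
      apply ht.2
      exact mem_iUnion₂.2 ⟨f', Finset.mem_erase.2 ⟨fun h => hne h.symm, hf'⟩, ht.1, ht'.1⟩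
    have hTx : ∀ x t, T x t = ∑ f ∈ F, θ f * ((ind (A' f) : Γ →ᵇ 𝕜) t * x (p1 t)) := by
      intro x t
      have h1 : T x = ∑ f ∈ F,
          (θ f • (mu (ind (A' f)) * co p1) : (Γ →ᵇ 𝕜) →L[𝕜] (Γ →ᵇ 𝕜)) x := by
        rw [hT, _root_.sum_apply]
      rw [h1, BoundedContinuousFunction.coe_sum, Finset.sum_apply]
      rfl
    have hTn : ‖T‖ ≤ 1 := by
      refine ContinuousLinearMap.opNorm_le_bound _ zero_le_one fun x => ?_
      rw [one_mul]
      refine (BoundedContinuousFunction.norm_le (norm_nonneg _)).2 fun t => ?_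
      rw [hTx]
      by_cases hex : ∃ f ∈ F, t ∈ A' f
      · obtain ⟨f, hf, hft⟩ := hex
        rw [Finset.sum_eq_single_of_mem f hf]
        · rw [ind_of hft, one_mul, norm_mul, hθ1, one_mul]
          exact x.norm_coe_le_norm _
        · intro f' hf' hne
          rw [ind_not (fun h => hne (hdisj f' hf' f hf t h hft)), zero_mul, mul_zero]
      · push Not at hex
        rw [Finset.sum_eq_zero]
        · simp
        · intro f hf
          rw [ind_not (hex f hf), zero_mul, mul_zero]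
    have hψT : g (ψ T z) = ((∑ f ∈ F, ‖g (ψ (V f) z)‖ : ℝ) : 𝕜) := by
      have h1 : ψ T = ∑ f ∈ F, θ f • ψ (V f) := by
        rw [hT, map_sum]
        refine Finset.sum_congr rfl fun f _ => ?_
        rw [map_smul, hψV]
      rw [h1, _root_.sum_apply, map_sum, RCLike.ofReal_sum]
      refine Finset.sum_congr rfl fun f _ => ?_
      rw [smul_apply, map_smul, smul_eq_mul]
      exact hθ2 f
    have h2 : ‖g (ψ T z)‖ ≤ ‖g‖ * (C * ‖z‖) := by
      calc ‖g (ψ T z)‖ ≤ ‖g‖ * ‖ψ T z‖ := g.le_opNorm _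
        _ ≤ ‖g‖ * (C * 1 * ‖z‖) := by
            refine mul_le_mul_of_nonneg_left ?_ (norm_nonneg _)
            refine ((ψ T).le_opNorm z).trans ?_
            refine mul_le_mul_of_nonneg_right ((hC _).trans ?_) (norm_nonneg _)
            exact mul_le_mul_of_nonneg_left hTn hC0
        _ = ‖g‖ * (C * ‖z‖) := by ring
    rw [hψT, RCLike.norm_ofReal, abs_of_nonneg (Finset.sum_nonneg fun _ _ => norm_nonneg _)] at h2
    exact h2
  have hcount : ∀ g : Y →L[𝕜] 𝕜, {f : 𝔉 | g (ψ (V f) z) ≠ 0}.Countable := by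
    intro g
    have h1 : Summable fun f : 𝔉 => ‖g (ψ (V f) z)‖ :=
      summable_of_sum_le (fun _ => norm_nonneg _) (hbound g)
    refine h1.countable_support.mono fun f hf => ?_
    simpa using hf
  -- cardinality
  have hcover : (⋃ t : Γ, {f : 𝔉 | ((ev t).comp G) (ψ (V f) z) ≠ 0}) = univ := by
    rw [eq_univ_iff_forall]
    intro f
    rw [mem_iUnion]
    by_contra hcon
    push Not at hcon
    apply hzf f
    apply hG
    rw [map_zero]
    ext t
    have := hcon t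
    simpa [ev_apply] using this
  have h1 : #𝔉 ≤ #Γ := by
    rw [← Cardinal.mk_univ, ← hcover]
    refine (Cardinal.mk_iUnion_le_sum_mk).trans ?_
    refine (Cardinal.sum_le_sum _ (fun _ => ℵ₀) fun t => ?_).trans ?_
    · exact (hcount _).le_aleph0
    · rw [Cardinal.sum_const, Cardinal.lift_id, Cardinal.lift_aleph0]
      exact (Cardinal.mul_aleph0_eq (Cardinal.aleph0_le_mk Γ)).le
  exact absurd h𝔉c (not_lt.2 h1)

end

end Pool.Agent.R634.SH
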